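import Mathlib

namespace Pool.Agent.Results.MP_9a0911_co.OrderSix

/-- A Latin square of order `n` on the symbol set `Fin n`: every symbol occurs exactly once in
every row and exactly once in every column. -/
def IsLatinSquare {n : ℕ} (L : Fin n → Fin n → Fin n) : Prop :=
  (∀ i, Function.Bijective (fun j => L i j)) ∧ (∀ j, Function.Bijective (fun i => L i j))

/-- The set of distinct ordered pairs obtained by superimposing two squares. -/
def pairSet {n : ℕ} (L M : Fin n → Fin n → Fin n) : Finset (Fin n × Fin n) :=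
  Finset.univ.image (fun p : Fin n × Fin n => (L p.1 p.2, M p.1 p.2))

/-- `(L, M)` is `r`-orthogonal: exactly `r` distinct ordered pairs occur. -/
def IsOrthogonalOfCard {n : ℕ} (r : ℕ) (L M : Fin n → Fin n → Fin n) : Prop :=
  (pairSet L M).card = r

/-- `L` has a `2 × 2` Latin subsquare in rows `i ≠ i'` and columns `j ≠ j'`. -/
def HasSubsquare {n : ℕ} (L : Fin n → Fin n → Fin n) (i i' j j' : Fin n) : Prop :=
  i ≠ i' ∧ j ≠ j' ∧ L i j = L i' j' ∧ L i j' = L i' j ∧ L i j ≠ L i j'

/-- `(L, M)` is near-orthogonal: it is `(n ^ 2 - 2)`-orthogonal, and on some rows `i ≠ i'` and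
columns `j ≠ j'` both squares have a `2 × 2` Latin subsquare, using the same two symbols. -/
def IsNearOrthogonal {n : ℕ} (L M : Fin n → Fin n → Fin n) : Prop :=
  IsOrthogonalOfCard (n ^ 2 - 2) L M ∧
    ∃ i i' j j' : Fin n, HasSubsquare L i i' j j' ∧ HasSubsquare M i i' j j' ∧
      ({L i j, L i j'} : Finset (Fin n)) = {M i j, M i j'}

/-- The first square. -/
def sqL : Fin 6 → Fin 6 → Fin 6 :=
  ![![0, 5, 3, 4, 1, 2], ![3, 0, 5, 2, 4, 1], ![5, 3, 1, 0, 2, 4],
    ![1, 2, 4, 3, 0, 5], ![4, 1, 2, 5, 3, 0], ![2, 4, 0, 1, 5, 3]]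

/-- The second square. -/
def sqM : Fin 6 → Fin 6 → Fin 6 :=
  ![![1, 2, 0, 5, 3, 4], ![3, 1, 4, 0, 2, 5], ![5, 4, 2, 3, 1, 0],
    ![0, 5, 1, 2, 4, 3], ![4, 0, 3, 1, 5, 2], ![2, 3, 5, 4, 0, 1]]

theorem latin_sqL : IsLatinSquare sqL := by
  constructor <;> intro i <;> rw [Fintype.bijective_iff_injective_and_card] <;>
    refine ⟨?_, rfl⟩ <;> revert i <;> unfold Function.Injective <;> decide

theorem latin_sqM : IsLatinSquare sqM := by
  constructor <;> intro i <;> rw [Fintype.bijective_iff_injective_and_card] <;>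
    refine ⟨?_, rfl⟩ <;> revert i <;> unfold Function.Injective <;> decide

theorem card_pairs : (pairSet sqL sqM).card = 34 := by
  decide +kernel

theorem no_common : ∀ i i' j j' : Fin 6, i ≠ i' → j ≠ j' → sqL i j = sqL i' j' →
    sqL i j' = sqL i' j → sqM i j = sqM i' j' → sqM i j' = sqM i' j → False := by
  decide +kernel

/-- There are a natural number `n` and an `(n ^ 2 - 2)`-orthogonal pair of Latin squares of
order `n` such that no relabelling of the second square makes the pair near-orthogonal;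
`n = 6` works. -/
theorem result : ∃ L M : Fin 6 → Fin 6 → Fin 6,
    IsLatinSquare L ∧ IsLatinSquare M ∧ IsOrthogonalOfCard (6 ^ 2 - 2) L M ∧
      ∀ σ : Equiv.Perm (Fin 6), ¬ IsNearOrthogonal L (fun i j => σ (M i j)) := by
  refine ⟨sqL, sqM, latin_sqL, latin_sqM, card_pairs, ?_⟩
  rintro σ ⟨-, i, i', j, j', hL, hM, -⟩
  exact no_common i i' j j' hL.1 hL.2.1 hL.2.2.1 hL.2.2.2.1
    (σ.injective hM.2.2.1) (σ.injective hM.2.2.2.1)

end Pool.Agent.Results.MP_9a0911_co.OrderSix
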